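import Pool.Agent.Q297.RM.Act3

/-!
# MP_af3a77_al, Q2

There are a finitely generated group `G` and a finite subgroup `H` (cyclic of order four) such that
the submonoid of `Λ⁺(H)` formed by the restrictions to `H` of the finite actions of `G` is not
finitely generated.
-/

namespace Pool.Agent.Results.MP_af3a77_al.RestrictedActions

open Pool.Agent.Q297.RM

/-- There are a finitely generated group `G` and a finite subgroup `H` of `G` such that no finitely
many finite `G`-sets generate, under disjoint union and isomorphism of `H`-sets, all restrictions
to `H` of finite `G`-sets. -/
theorem result : ∃ (G : Type) (_ : Group G) (_ : Group.FG G) (H : Subgroup G) (_ : Finite H),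
    ¬ FinGenActions G H :=
  Act.main

end Pool.Agent.Results.MP_af3a77_al.RestrictedActions
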